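import Pool.Agent.W901.RL.Stm2
import Pool.Agent.W150.RL.Gram

/-!
# Large deviations of few strings (part E1L of the project RL of helper901)
-/

set_option autoImplicit false

namespace Pool.Agent.W351.RL

open Finset Pool.Agent.NPC Pool.Agent.H579R2.Spt Pool.Agent.H251R5.PQ Pool.Agent.W901.AT
open Pool.Agent.W901.RL Pool.Agent.W150.RL

theorem sg_eq (b : Bool) : sg b = ch b := rfl

/-- the signed sum of the labels of the strings `u l`, question `i` -/
def VV (p : ℕ) (σ : List Bool) {q : ℕ} (u : Fin q → List Bool) (e : Fin q → ℤ) (i : ℕ) : ℤ :=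
  ∑ l, e l * sg (lbl p (blk (p * p) i σ) (u l))

/-- the moment bound for several blocks -/
theorem mom_blocks (hL : S_LMOM) {p m j k q : ℕ} (u : Fin q → List Bool) (e : Fin q → ℤ)
    (hp : p.Prime) (hj : 2 * k * j < p) (hu : Function.Injective u) (hlen : ∀ l, (u l).length = j)
    (he : ∀ l, e l = 1 ∨ e l = -1) (J : Finset ℕ) (hJ : J ⊆ range m) (hJc : J.card = q) :
    ∑ σ ∈ BL (m * (p * p)), ∏ i ∈ J, (VV p σ u e i) ^ (2 * k) ≤
      2 ^ (m * (p * p)) * (2 * k * q : ℤ) ^ (k * q) := by
  classical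
  set f : ℕ → List Bool → ℤ := fun i s =>
    if i ∈ J then (∑ l, e l * sg (lbl p s (u l))) ^ (2 * k) else 1 with hf
  have h1 : ∀ σ, ∏ i ∈ J, (VV p σ u e i) ^ (2 * k) = ∏ i ∈ range m, f i (blk (p * p) i σ) := by
    intro σ
    rw [← Finset.prod_subset hJ (f := fun i => f i (blk (p * p) i σ))]
    · refine Finset.prod_congr rfl fun i hi => ?_
      simp only [hf]
      rw [if_pos hi]
      rfl
    · intro i _ hi
      simp only [hf]
      rw [if_neg hi]
  rw [Finset.sum_congr rfl fun σ _ => h1 σ, sum_blocks]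
  have h2 : ∀ i ∈ range m, ∑ s ∈ BL (p * p), f i s ≤
      2 ^ (p * p) * (if i ∈ J then (2 * k * q : ℤ) ^ k else 1) := by
    intro i _
    by_cases hi : i ∈ J
    · simp only [hf, if_pos hi]
      exact hL p j k q u e hp hj hu hlen he
    · simp only [hf, if_neg hi, Finset.sum_const, nsmul_eq_mul, mul_one]
      exact le_of_eq (card_BL _)
  have h3 : ∀ i ∈ range m, 0 ≤ ∑ s ∈ BL (p * p), f i s := by
    intro i _
    refine Finset.sum_nonneg fun s _ => ?_
    simp only [hf]
    split_ifs
    · rw [pow_mul]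
      exact pow_nonneg (sq_nonneg _) _
    · norm_num
  refine (Finset.prod_le_prod h3 h2).trans ?_
  rw [Finset.prod_mul_distrib, Finset.prod_const, card_range, ← pow_mul, mul_comm (p * p) m]
  have h4 : ∏ i ∈ range m, (if i ∈ J then (2 * k * q : ℤ) ^ k else 1) =
      (2 * k * q : ℤ) ^ (k * q) := by
    rw [← Finset.prod_subset hJ (f := fun i => if i ∈ J then (2 * k * q : ℤ) ^ k else 1)]
    · rw [Finset.prod_congr rfl fun i hi => if_pos hi, Finset.prod_const, hJc, ← pow_mul]
    · intro i _ hi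
      rw [if_neg hi]
  rw [h4]

/-- the bad event for fixed strings, signs and questions -/
noncomputable def badE (p m k q : ℕ) (u : Fin q → List Bool) (e : Fin q → ℤ) (J : Finset ℕ) :
    Finset (List Bool) :=
  (BL (m * (p * p))).filter fun σ => ∀ i ∈ J, (8 * k * q : ℤ) ≤ (VV p σ u e i) ^ 2

theorem card_badE (hL : S_LMOM) {p m j k q : ℕ} (u : Fin q → List Bool) (e : Fin q → ℤ)
    (hp : p.Prime) (hj : 2 * k * j < p) (hu : Function.Injective u) (hlen : ∀ l, (u l).length = j)
    (he : ∀ l, e l = 1 ∨ e l = -1) (J : Finset ℕ) (hJ : J ⊆ range m) (hJc : J.card = q)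
    (hk : 1 ≤ k) (hq : 1 ≤ q) :
    (badE p m k q u e J).card * 4 ^ (k * q) ≤ 2 ^ (m * (p * p)) := by
  classical
  have h1 := mom_blocks hL u e hp hj hu hlen he J hJ hJc
  have h2 : ((badE p m k q u e J).card : ℤ) * (8 * k * q : ℤ) ^ (k * q) ≤
      ∑ σ ∈ BL (m * (p * p)), ∏ i ∈ J, (VV p σ u e i) ^ (2 * k) := by
    calc ((badE p m k q u e J).card : ℤ) * (8 * k * q : ℤ) ^ (k * q) =
          ∑ σ ∈ badE p m k q u e J, (8 * k * q : ℤ) ^ (k * q) := by
          rw [Finset.sum_const, nsmul_eq_mul]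
      _ ≤ ∑ σ ∈ badE p m k q u e J, ∏ i ∈ J, (VV p σ u e i) ^ (2 * k) := by
          refine Finset.sum_le_sum fun σ hσ => ?_
          unfold badE at hσ
          rw [Finset.mem_filter] at hσ
          have h3 : (8 * k * q : ℤ) ^ (k * q) = ∏ i ∈ J, (8 * k * q : ℤ) ^ k := by
            rw [Finset.prod_const, hJc, ← pow_mul]
          rw [h3]
          refine Finset.prod_le_prod (fun i _ => by positivity) fun i hi => ?_
          rw [pow_mul]
          exact pow_le_pow_left₀ (by positivity) (hσ.2 i hi) k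
      _ ≤ _ := by
          refine Finset.sum_le_sum_of_subset_of_nonneg (Finset.filter_subset _ _)
            fun σ _ _ => Finset.prod_nonneg fun i _ => ?_
          rw [pow_mul]
          exact pow_nonneg (sq_nonneg _) _
  have h3 := h2.trans h1
  have h4 : (8 * k * q : ℤ) ^ (k * q) = 4 ^ (k * q) * (2 * k * q : ℤ) ^ (k * q) := by
    rw [← mul_pow]
    congr 1
    ring
  rw [h4, ← mul_assoc] at h3
  have h5 : (0 : ℤ) < (2 * k * q : ℤ) ^ (k * q) := by
    have : (0 : ℤ) < k := by exact_mod_cast hk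
    have : (0 : ℤ) < q := by exact_mod_cast hq
    positivity
  have h6 := le_of_mul_le_mul_right h3 h5
  exact_mod_cast h6

/-- the sign of a bit -/
def sb (b : Bool) : ℤ := if b then 1 else -1

theorem sb_or (b : Bool) : sb b = 1 ∨ sb b = -1 := by cases b <;> simp [sb]

/-- the bad seeds -/
def IsBad (p m k : ℕ) (W : Finset (List Bool)) (σ : List Bool) : Prop :=
  ∃ q ∈ Icc 1 m, ∃ u : Fin q → List Bool, (∀ l, u l ∈ W) ∧ Function.Injective u ∧
    ∃ b : Fin q → Bool, ∃ J ∈ powersetCard q (range m),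
      ∀ i ∈ J, (8 * k * q : ℤ) ≤ (VV p σ u (fun l => sb (b l)) i) ^ 2

open Classical in
theorem card_bad (hL : S_LMOM) {p m j k K : ℕ} (W : Finset (List Bool)) (hp : p.Prime)
    (hj : 2 * k * j < p) (hW : ∀ u ∈ W, u.length = j) (hk : 1 ≤ k)
    (hN : 4 * (W.card + 2) * m * (K + 1) ≤ 4 ^ k) :
    K * ((BL (m * (p * p))).filter fun σ => IsBad p m k W σ).card ≤ 2 ^ (m * (p * p)) := by
  set L := m * (p * p) with hLdef
  set N := W.card with hNdef
  -- cover
  have hcov : ((BL L).filter fun σ => IsBad p m k W σ) ⊆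
      (Icc 1 m).biUnion fun q => (Fintype.piFinset fun _ : Fin q => W).biUnion fun u =>
        (univ : Finset (Fin q → Bool)).biUnion fun b => (powersetCard q (range m)).biUnion fun J =>
          if Function.Injective u then badE p m k q u (fun l => sb (b l)) J else ∅ := by
    intro σ hσ
    rw [Finset.mem_filter] at hσ
    obtain ⟨hσ1, q, hq, u, hu, hinj, b, J, hJ, hbad⟩ := hσ
    rw [Finset.mem_biUnion]
    refine ⟨q, hq, ?_⟩
    rw [Finset.mem_biUnion]
    refine ⟨u, by rw [Fintype.mem_piFinset]; exact hu, ?_⟩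
    rw [Finset.mem_biUnion]
    refine ⟨b, Finset.mem_univ _, ?_⟩
    rw [Finset.mem_biUnion]
    refine ⟨J, hJ, ?_⟩
    rw [if_pos hinj]
    unfold badE
    rw [Finset.mem_filter]
    exact ⟨hσ1, hbad⟩
  have hone : ∀ q ∈ Icc 1 m, ∀ u ∈ (Fintype.piFinset fun _ : Fin q => W), ∀ b : Fin q → Bool,
      ∀ J ∈ powersetCard q (range m),
      ((if Function.Injective u then badE p m k q u (fun l => sb (b l)) J else ∅).card : ℝ) ≤
        2 ^ L / 4 ^ (k * q) := by
    intro q hq u hu b J hJ
    split_ifs with hinj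
    · rw [Finset.mem_powersetCard] at hJ
      rw [Finset.mem_Icc] at hq
      rw [Fintype.mem_piFinset] at hu
      rw [le_div_iff₀ (by positivity)]
      have := card_badE hL u (fun l => sb (b l)) hp hj hinj (fun l => hW _ (hu l))
        (fun l => sb_or _) J hJ.1 hJ.2 hk hq.1
      exact_mod_cast this
    · simp
      positivity
  have hcard : (((BL L).filter fun σ => IsBad p m k W σ).card : ℝ) ≤
      ∑ q ∈ Icc 1 m, (N : ℝ) ^ q * (2 ^ q * ((m : ℝ) ^ q * (2 ^ L / 4 ^ (k * q)))) := by
    refine (Nat.cast_le.2 ((Finset.card_le_card hcov).trans Finset.card_biUnion_le)).trans ?_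
    rw [Nat.cast_sum]
    refine Finset.sum_le_sum fun q hq => ?_
    refine (Nat.cast_le.2 Finset.card_biUnion_le).trans ?_
    rw [Nat.cast_sum]
    refine (Finset.sum_le_card_nsmul _ _ (2 ^ q * ((m : ℝ) ^ q * (2 ^ L / 4 ^ (k * q))))
      fun u hu => ?_).trans ?_
    · refine (Nat.cast_le.2 Finset.card_biUnion_le).trans ?_
      rw [Nat.cast_sum]
      refine (Finset.sum_le_card_nsmul _ _ ((m : ℝ) ^ q * (2 ^ L / 4 ^ (k * q)))
        fun b _ => ?_).trans ?_
      · refine (Nat.cast_le.2 Finset.card_biUnion_le).trans ?_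
        rw [Nat.cast_sum]
        refine (Finset.sum_le_card_nsmul _ _ (2 ^ L / 4 ^ (k * q) : ℝ)
          fun J hJ => hone q hq u hu b J hJ).trans ?_
        rw [Finset.card_powersetCard, card_range, nsmul_eq_mul]
        refine mul_le_mul_of_nonneg_right ?_ (by positivity)
        exact_mod_cast Nat.choose_le_pow m q
      · rw [nsmul_eq_mul, Finset.card_univ, Fintype.card_fun, Fintype.card_bool, Fintype.card_fin]
        push_cast
        exact le_rfl
    · rw [nsmul_eq_mul, Fintype.card_piFinset_const]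
      push_cast
      exact le_rfl
  set x : ℝ := 2 * N * m / 4 ^ k with hx
  have hx0 : 0 ≤ x := by positivity
  have hx1 : (K + 1) * x ≤ 1 := by
    rw [hx, ← mul_div_assoc, div_le_one (by positivity)]
    have h1 : (K + 1) * (2 * N * m) ≤ 4 ^ k := by
      refine le_trans ?_ hN
      nlinarith [Nat.zero_le (m * (K + 1)), Nat.zero_le (N * (m * (K + 1)))]
    exact_mod_cast h1
  have hterm : ∀ q, (N : ℝ) ^ q * (2 ^ q * ((m : ℝ) ^ q * (2 ^ L / 4 ^ (k * q)))) =
      2 ^ L * x ^ q := by
    intro q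
    rw [hx, div_pow, mul_pow, mul_pow, pow_mul]
    ring
  have hsum : ∑ q ∈ Icc 1 m, (N : ℝ) ^ q * (2 ^ q * ((m : ℝ) ^ q * (2 ^ L / 4 ^ (k * q)))) =
      2 ^ L * ∑ q ∈ Icc 1 m, x ^ q := by
    rw [Finset.mul_sum]
    exact Finset.sum_congr rfl fun q _ => hterm q
  have hgeo : (1 - x) * ∑ q ∈ Icc 1 m, x ^ q ≤ x := by
    have h1 : ∑ q ∈ Icc 1 m, x ^ q = ∑ q ∈ range m, x ^ (q + 1) := by
      rw [Finset.range_eq_Ico, Finset.sum_Ico_add' (fun q => x ^ q) 0 m 1]
      rfl
    have h2 : ∑ q ∈ range m, x ^ (q + 1) = x * ∑ q ∈ range m, x ^ q := by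
      rw [Finset.mul_sum]
      exact Finset.sum_congr rfl fun q _ => by ring
    have h3 : (1 - x) * ∑ q ∈ range m, x ^ q = 1 - x ^ m := by
      have := geom_sum_mul x m
      linarith
    rw [h1, h2]
    calc (1 - x) * (x * ∑ q ∈ range m, x ^ q) = x * ((1 - x) * ∑ q ∈ range m, x ^ q) := by ring
      _ = x * (1 - x ^ m) := by rw [h3]
      _ ≤ x * 1 := mul_le_mul_of_nonneg_left (by have := pow_nonneg hx0 m; linarith) hx0
      _ = x := mul_one x
  have hS0 : 0 ≤ ∑ q ∈ Icc 1 m, x ^ q := Finset.sum_nonneg fun q _ => pow_nonneg hx0 q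
  have hKS : (K : ℝ) * ∑ q ∈ Icc 1 m, x ^ q ≤ 1 := by
    set S : ℝ := ∑ q ∈ Icc 1 m, x ^ q with hS
    rcases Nat.eq_zero_or_pos K with hK | hK
    · rw [hK]
      simp
    · have hK' : (1 : ℝ) ≤ K := by exact_mod_cast hK
      have hxlt : x < 1 := by nlinarith
      have h1 : (1 - x) * (K * S) ≤ (1 - x) * 1 := by
        calc (1 - x) * (K * S) = K * ((1 - x) * S) := by ring
          _ ≤ K * x := mul_le_mul_of_nonneg_left hgeo (by linarith)
          _ ≤ (1 - x) * 1 := by linarith
      exact le_of_mul_le_mul_left h1 (by linarith)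
  have hfin : ((K * ((BL L).filter fun σ => IsBad p m k W σ).card : ℕ) : ℝ) ≤
      ((2 ^ L : ℕ) : ℝ) := by
    push_cast
    calc (K : ℝ) * (((BL L).filter fun σ => IsBad p m k W σ).card : ℝ) ≤
          K * (2 ^ L * ∑ q ∈ Icc 1 m, x ^ q) := by
          rw [← hsum]
          exact mul_le_mul_of_nonneg_left hcard (by positivity)
      _ = 2 ^ L * (K * ∑ q ∈ Icc 1 m, x ^ q) := by ring
      _ ≤ 2 ^ L * 1 := mul_le_mul_of_nonneg_left hKS (by positivity)
      _ = 2 ^ L := mul_one _
  exact_mod_cast hfin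

theorem abs_sb (b : Bool) : |(sb b : ℝ)| = 1 := by cases b <;> simp [sb]

theorem abs_ch (b : Bool) : |(ch b : ℝ)| = 1 := by cases b <;> simp [ch]

theorem made_card (h : List (Option Bool)) :
    (made h) = ((univ : Finset (Fin h.length)).filter fun i : Fin h.length =>
      h.getD i none ≠ none).card := by
  have h1 := made_eq h
  have h2 : ∑ i ∈ range h.length, co (h.getD i none) ^ 2 =
      ∑ i : Fin h.length, if h.getD i none ≠ none then (1 : ℤ) else 0 := by
    rw [Finset.sum_range]
    refine Finset.sum_congr rfl fun i _ => ?_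
    generalize h.getD (i : ℕ) none = o
    cases o with
    | none => simp [co]
    | some b => cases b <;> simp [co, ch]
  rw [h2, Finset.sum_boole] at h1
  exact_mod_cast h1

/-- the deterministic part -/
theorem det (hS : S_SAMP) (hY : S_LAYER) {p m k T : ℕ} (W : List (List Bool)) (hk : 1 ≤ k)
    (hm8 : 8 * m ≤ 4 ^ k) (hT : 192 * k ≤ T) (hnd : W.Nodup) (σ : List Bool)
    (hσ : ¬ IsBad p m k W.toFinset σ) (h : List (Option Bool)) (hlen : h.length = m) :
    (W.filter (fun u => decide (0 < made h ∧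
        (T : ℤ) * made h ≤ (excess h (row p m σ u)) ^ 2))).length ≤ 2 * m ^ 2 := by
  classical
  by_contra hcon
  push Not at hcon
  set L0 : Finset (List Bool) := (W.filter (fun u => decide (0 < made h ∧
        (T : ℤ) * made h ≤ (excess h (row p m σ u)) ^ 2))).toFinset with hL0
  have hL0c : L0.card = (W.filter (fun u => decide (0 < made h ∧
        (T : ℤ) * made h ≤ (excess h (row p m σ u)) ^ 2))).length :=
    List.toFinset_card_of_nodup (hnd.filter _)
  have hmem : ∀ u ∈ L0, u ∈ W.toFinset ∧ 0 < made h ∧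
      (T : ℤ) * made h ≤ (excess h (row p m σ u)) ^ 2 := by
    intro u hu
    rw [hL0, List.mem_toFinset, List.mem_filter] at hu
    refine ⟨List.mem_toFinset.2 hu.1, ?_⟩
    simpa using hu.2
  rw [← hL0c] at hcon
  have hne : L0.Nonempty := Finset.card_pos.1 (by omega)
  obtain ⟨u0, hu0⟩ := hne
  have hs : 0 < made h := (hmem u0 hu0).2.1
  set s := made h with hsdef
  let ι := {u // u ∈ L0}
  have hcι : Fintype.card ι = L0.card := Fintype.card_coe L0
  have hcpos : (0 : ℝ) < Fintype.card ι := by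
    rw [hcι]
    have : 0 < L0.card := by omega
    exact_mod_cast this
  let ε : ι → Bool := fun u => decide (0 ≤ excess h (row p m σ u.1))
  have hε : ∀ u : ι, (sb (ε u) : ℝ) * (excess h (row p m σ u.1) : ℝ) =
      |(excess h (row p m σ u.1) : ℝ)| := by
    intro u
    by_cases h1 : 0 ≤ excess h (row p m σ u.1)
    · have h2 : (0 : ℝ) ≤ (excess h (row p m σ u.1) : ℝ) := by exact_mod_cast h1
      have h3 : ε u = true := by simp only [ε]; exact decide_eq_true h1
      rw [h3, abs_of_nonneg h2]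
      simp [sb]
    · have h2 : ((excess h (row p m σ u.1) : ℝ)) < 0 := by exact_mod_cast not_le.1 h1
      have h3 : ε u = false := by simp only [ε]; exact decide_eq_false h1
      rw [h3, abs_of_neg h2]
      simp [sb]
  let y : Fin m → ι → ℝ := fun i u => (sb (ε u) : ℝ) * (chi p σ u.1 i : ℝ)
  have hy1 : ∀ i u, |y i u| ≤ 1 := by
    intro i u
    simp only [y]
    rw [abs_mul, abs_sb, one_mul]
    exact (abs_ch _).le
  let μ : Fin m → ℝ := fun i => (∑ u, y i u) / Fintype.card ι
  let w : Fin m → ℝ := fun i => |μ i|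
  have hw : ∀ i, 0 ≤ w i ∧ w i ≤ 1 := by
    intro i
    refine ⟨abs_nonneg _, ?_⟩
    simp only [w, μ]
    rw [abs_div, abs_of_pos hcpos, div_le_one hcpos]
    refine (Finset.abs_sum_le_sum_abs _ _).trans ?_
    refine (Finset.sum_le_sum fun u _ => hy1 i u).trans ?_
    simp
  let A : Finset (Fin m) := univ.filter fun i => h.getD i none ≠ none
  have hAc : A.card = s := by
    rw [hsdef, made_card]
    subst hlen
    rfl
  -- the excess
  have hex : ∀ u : ι, (excess h (row p m σ u.1) : ℝ) =
      ∑ i : Fin m, (co (h.getD i none) : ℝ) * (chi p σ u.1 i : ℝ) := by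
    intro u
    have h1 := excess_eq h (fun i => lbl p (blk (p * p) i σ) u.1)
    rw [hlen] at h1
    have h2 : row p m σ u.1 = (List.range m).map (fun i => lbl p (blk (p * p) i σ) u.1) := rfl
    rw [h2, h1, Finset.sum_range]
    push_cast
    rfl
  have hbig : ∀ u : ι, √((T : ℝ) * s) ≤ ∑ i : Fin m, (co (h.getD i none) : ℝ) * y i u := by
    intro u
    have h1 : ∑ i : Fin m, (co (h.getD i none) : ℝ) * y i u =
        |(excess h (row p m σ u.1) : ℝ)| := by
      rw [← hε, hex, Finset.mul_sum]
      refine Finset.sum_congr rfl fun i _ => ?_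
      simp only [y]
      ring
    rw [h1]
    apply Real.sqrt_le_iff.2
    refine ⟨abs_nonneg _, ?_⟩
    rw [sq_abs]
    exact_mod_cast (hmem u.1 u.2).2.2
  have hsumw : √((T : ℝ) * s) ≤ ∑ i ∈ A, w i := by
    have h1 : (Fintype.card ι : ℝ) * √((T : ℝ) * s) ≤
        ∑ u : ι, ∑ i : Fin m, (co (h.getD i none) : ℝ) * y i u := by
      have h2 := Finset.sum_le_sum fun (u : ι) (_ : u ∈ (univ : Finset ι)) => hbig u
      rw [Finset.sum_const, nsmul_eq_mul, Finset.card_univ] at h2
      exact h2
    rw [Finset.sum_comm] at h1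
    have h3 : ∑ i : Fin m, ∑ u : ι, (co (h.getD i none) : ℝ) * y i u ≤
        ∑ i : Fin m, if h.getD i none ≠ none then (Fintype.card ι : ℝ) * w i else 0 := by
      refine Finset.sum_le_sum fun i _ => ?_
      rw [← Finset.mul_sum]
      have h4 : ∑ u : ι, y i u = Fintype.card ι * μ i := by
        simp only [μ]
        field_simp
      rw [h4]
      generalize h.getD (i : ℕ) none = o
      cases o with
      | none => simp [co]
      | some b =>
        have h5 := abs_nonneg (μ i)
        have h6 := neg_abs_le (μ i)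
        have h7 := le_abs_self (μ i)
        cases b
        · simp only [co, ch, Option.elim]
          simp only [w]
          norm_num
          exact mul_le_mul_of_nonneg_left h7 hcpos.le
        · simp only [co, ch, Option.elim]
          simp only [w]
          rw [if_pos (show (some true : Option Bool) ≠ none by simp)]
          have h8 := mul_le_mul_of_nonneg_left h6 hcpos.le
          norm_num
          linarith
    rw [← Finset.sum_filter, ← Finset.mul_sum] at h3
    have h4 := h1.trans h3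
    exact le_of_mul_le_mul_left h4 hcpos
  -- the layers
  set c : ℝ := 8 * k * (1 + √2) ^ 2 with hc
  have hkR : (1 : ℝ) ≤ k := by exact_mod_cast hk
  have hcpos' : 0 < c := by rw [hc]; positivity
  have hlay : ∀ θ : ℝ, 0 < θ → θ ≤ 1 →
      ((A.filter (fun i => θ ≤ w i)).card : ℝ) * θ ^ 2 ≤ c := by
    intro θ hθ0 hθ1
    by_contra hq
    push Not at hq
    set B := A.filter (fun i => θ ≤ w i) with hB
    set q := B.card with hqdef
    have hq1 : 1 ≤ q := by
      rcases Nat.eq_zero_or_pos q with h0 | h0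
      · rw [h0] at hq
        simp at hq
        linarith
      · exact h0
    have hqm : q ≤ m := by
      have := Finset.card_le_univ B
      rwa [Fintype.card_fin] at this
    obtain ⟨f, hf, hf2⟩ := hS ι inferInstance m q k y hq1 hqm hk (by rw [hcι]; omega) hm8 hy1
    apply hσ
    refine ⟨q, Finset.mem_Icc.2 ⟨hq1, hqm⟩, fun l => (f l).1, fun l => (hmem _ (f l).2).1,
      Subtype.val_injective.comp hf, fun l => ε (f l), B.map Fin.valEmbedding, ?_, ?_⟩
    · rw [Finset.mem_powersetCard]
      refine ⟨?_, by rw [Finset.card_map]⟩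
      intro i hi
      rw [Finset.mem_map] at hi
      obtain ⟨a, _, rfl⟩ := hi
      exact Finset.mem_range.2 a.2
    · intro i hi
      rw [Finset.mem_map] at hi
      obtain ⟨a, ha, rfl⟩ := hi
      rw [hB, Finset.mem_filter] at ha
      have hwa : θ ≤ |μ a| := ha.2
      have hV : ((VV p σ (fun l => (f l).1) (fun l => sb (ε (f l))) (Fin.valEmbedding a) : ℤ) : ℝ) =
          ∑ l, y a (f l) := by
        unfold VV
        push_cast
        rfl
      have h1 := hf2 a
      have hqR : (1 : ℝ) ≤ q := by exact_mod_cast hq1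
      have h2 : √(8 * k * q) * (1 + √2) ≤ q * θ := by
        apply abs_le_of_sq_le_sq' _ (by positivity) |>.2
        rw [mul_pow, Real.sq_sqrt (by positivity)]
        have h3 : (8 * k * q : ℝ) * (1 + √2) ^ 2 = c * q := by rw [hc]; ring
        rw [h3]
        have h4 : (q * θ) ^ 2 = (q * θ ^ 2) * q := by ring
        rw [h4]
        exact mul_le_mul_of_nonneg_right hq.le (by linarith)
      have h5 : √(16 * k * q) = √(8 * k * q) * √2 := by
        rw [← Real.sqrt_mul (by positivity)]
        congr 1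
        ring
      have h6 : √(8 * k * q) ≤ |∑ l, y a (f l)| := by
        have h7 : (q : ℝ) * θ ≤ |(q : ℝ) * μ a| := by
          rw [abs_mul, abs_of_pos (by linarith : (0 : ℝ) < q)]
          exact mul_le_mul_of_nonneg_left hwa (by linarith)
        have h8 : |(q : ℝ) * μ a| ≤ |∑ l, y a (f l)| + √(16 * k * q) := by
          have h9 : (q : ℝ) * μ a = ∑ l, y a (f l) - (∑ l, y a (f l) - q * μ a) := by ring
          rw [h9]
          exact (abs_sub _ _).trans (add_le_add le_rfl h1)
        rw [h5] at h8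
        linarith
      have h9 : (8 * k * q : ℝ) ≤ (∑ l, y a (f l)) ^ 2 := by
        rw [← sq_abs]
        calc (8 * k * q : ℝ) = √(8 * k * q) ^ 2 := (Real.sq_sqrt (by positivity)).symm
          _ ≤ _ := pow_le_pow_left₀ (Real.sqrt_nonneg _) h6 2
      rw [← hV] at h9
      exact_mod_cast h9
  have hfin := hY (Fin m) inferInstance A w c hcpos'.le (fun i _ => hw i) hlay
  have h1 := hsumw.trans hfin
  rw [hAc] at h1
  have hsR : (0 : ℝ) < s := by exact_mod_cast hs
  have h2 : (T : ℝ) * s ≤ 4 * (c * s) := by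
    have h3 := pow_le_pow_left₀ (Real.sqrt_nonneg _) h1 2
    rw [Real.sq_sqrt (by positivity), mul_pow, Real.sq_sqrt (by positivity)] at h3
    linarith
  have h3 : (T : ℝ) ≤ 4 * c := by
    have : (T : ℝ) * s ≤ (4 * c) * s := by linarith
    exact le_of_mul_le_mul_right this hsR
  have h4 : (1 + √2) ^ 2 < 5.84 := by
    have h5 : √2 < 1.415 := by
      rw [Real.sqrt_lt' (by norm_num)]
      norm_num
    have h6 : √2 ^ 2 = 2 := Real.sq_sqrt (by norm_num)
    nlinarith
  have h5 : (192 : ℝ) * k ≤ T := by exact_mod_cast hT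
  have h6 : 4 * c < 192 * k := by
    rw [hc]
    nlinarith
  linarith

theorem E1L : S_LMOM → S_SAMP → S_LAYER → S_E1L := by
  intro hL hS hY p m j K k T W hp hm hk hj hT hN hnd hW
  classical
  have hc : W.toFinset.card = W.length := List.toFinset_card_of_nodup hnd
  have hb := card_bad (K := K) hL W.toFinset hp hj (fun u hu => hW u (List.mem_toFinset.1 hu)) hk
    (by rw [hc]; exact hN)
  have hm8 : 8 * m ≤ 4 ^ k := by
    refine le_trans ?_ hN
    nlinarith [Nat.zero_le (m * K), Nat.zero_le (W.length * (m * (K + 1)))]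
  have hsub : {σ : List Bool | σ.length = m * (p * p) ∧ ¬ ∀ h : List (Option Bool), h.length = m →
      (W.filter (fun u => decide (0 < made h ∧
        (T : ℤ) * made h ≤ (excess h (row p m σ u)) ^ 2))).length ≤ 2 * m ^ 2} ⊆
      (((BL (m * (p * p))).filter fun σ => IsBad p m k W.toFinset σ : Finset (List Bool)) :
        Set (List Bool)) := by
    rintro σ ⟨hσ, hh⟩
    rw [Finset.mem_coe, Finset.mem_filter, mem_BL]
    refine ⟨hσ, ?_⟩
    by_contra hcon
    exact hh fun h hlen => det hS hY W hk hm8 hT hnd σ hcon h hlen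
  have h2 := Set.ncard_le_ncard hsub (Finset.finite_toSet _)
  rw [Set.ncard_coe_finset] at h2
  exact (Nat.mul_le_mul_left K h2).trans hb

end Pool.Agent.W351.RL
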